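import Pool.Agent.W774.OrlC

set_option autoImplicit false
open Filter Topology

namespace Pool.Agent.Results.MP_85199e_an.EverywhereUnbounded

/-- Orlicz's question: for every nondecreasing `ω → ∞` there is a real trigonometric series with
coefficients `O(ω(n)/√n)`, lying in every `ℓ^p` with `p > 2`, whose partial sums are unbounded at
every point; in particular it diverges everywhere. -/
theorem result (ω : ℕ → ℝ) (hmono : Monotone ω) (h0 : ∀ n, 0 ≤ ω n) (hlim : Tendsto ω atTop atTop) :
    ∃ a b : ℕ → ℝ,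
      (∀ n : ℕ, |a n| ≤ ω n / √n ∧ |b n| ≤ ω n / √n) ∧
      (∀ ε : ℝ, 0 < ε → Summable (fun n : ℕ => |a n| ^ (2 + ε) + |b n| ^ (2 + ε))) ∧
      ∀ x : ℝ,
        (¬ ∃ l : ℝ, Tendsto (fun N : ℕ =>
          ∑ n ∈ Finset.Icc 1 N, (a n * Real.cos (n * x) + b n * Real.sin (n * x))) atTop (𝓝 l)) ∧
        ¬ BddAbove (Set.range fun N : ℕ =>
          |∑ n ∈ Finset.Icc 1 N, (a n * Real.cos (n * x) + b n * Real.sin (n * x))|) := by
  set α : ℕ → ℝ := fun n => min (ω n) (Real.log n) with hα
  have hlogmono : Monotone (fun n : ℕ => Real.log (n : ℝ)) := by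
    intro m n hmn
    rcases Nat.eq_zero_or_pos m with hm | hm
    · subst hm
      simp only [Nat.cast_zero, Real.log_zero]
      exact Real.log_natCast_nonneg n
    · apply Real.log_le_log (by exact_mod_cast hm)
      exact_mod_cast hmn
  have hαm : Monotone α := fun m n hmn => min_le_min (hmono hmn) (hlogmono hmn)
  have hα0 : ∀ n, 0 ≤ α n := fun n => le_min (h0 n) (Real.log_natCast_nonneg n)
  have hαl : Tendsto α atTop atTop := by
    rw [tendsto_atTop]
    intro c
    filter_upwards [hlim.eventually_ge_atTop c,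
      (Real.tendsto_log_atTop.comp tendsto_natCast_atTop_atTop).eventually_ge_atTop c] with n h1 h2
    exact le_min h1 h2
  obtain ⟨a, b, hab, hun⟩ := Pool.Agent.W774.Orl.core α hαm hα0 hαl
  refine ⟨a, b, ?_, ?_, ?_⟩
  · intro n
    have h1 : α n / √n ≤ ω n / √n := by
      gcongr
      exact min_le_left _ _
    exact ⟨(hab n).1.trans h1, (hab n).2.trans h1⟩
  · intro ε hε
    have h1 : ∀ n : ℕ, α n / √n ≤ Real.log n / √n := by
      intro n
      gcongr
      exact min_le_right _ _
    exact (Pool.Agent.W774.Orl.summable_log a (fun n => (hab n).1.trans (h1 n)) ε hε).add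
      (Pool.Agent.W774.Orl.summable_log b (fun n => (hab n).2.trans (h1 n)) ε hε)
  · intro x
    have hnb : ¬ BddAbove (Set.range fun N : ℕ =>
          |∑ n ∈ Finset.Icc 1 N, (a n * Real.cos (n * x) + b n * Real.sin (n * x))|) := by
      rintro ⟨C, hC⟩
      obtain ⟨N, hN⟩ := hun x C
      have := hC (Set.mem_range_self N)
      have h2 : |∑ n ∈ Finset.Icc 1 N, (a n * Real.cos (n * x) + b n * Real.sin (n * x))| ≤ C := this
      exact absurd hN (not_lt.mpr h2)
    refine ⟨?_, hnb⟩
    rintro ⟨l, hl⟩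
    exact hnb (hl.abs.bddAbove_range)

end Pool.Agent.Results.MP_85199e_an.EverywhereUnbounded
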